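import Mathlib
import Pool.Agent.X872.DetIneq.Main

/-!
Lin's inequality `det (A^2 + |AB|^p) ≥ det (A^2 + A^p B^p)` for positive semidefinite matrices and
`0 ≤ p ≤ 2`.

Proof. Put `P = A^2`, `X = B`, `r = p / 2`. The eigenvalues of `P^(r-1) X^(2r)` are weakly
log-majorised by those of `P^(-1) (X P X)^r`. By compound matrices it suffices to show that
`(X P X)^r ≤ P` implies `X^(2r) ≤ P^(1-r)`. For `r ≤ 1/2` this follows from the Loewner-Heinz
inequality. For `1/2 < r < 1` let `t` be the least number with `X^(2r) ≤ t P^(1-r)`; Furuta's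
inequality applied to `t^(-1) X^(2r) ≤ P^(1-r)` together with `(X P X)^r ≤ P` gives
`X^(2r) ≤ t^r P^(1-r)`, hence `t ≤ t^r` and `t ≤ 1`.
-/

set_option autoImplicit false

open Matrix Filter Topology
open scoped ComplexOrder MatrixOrder Matrix.Norms.L2Operator

namespace Pool.Agent.Results.MP_0f3ab5_an.DetInequality

/-- The power `X^q` of a Hermitian matrix by functional calculus: `x ↦ x^q` is applied to the
eigenvalues (with `0^0 = 1`, so that `X^0 = I`). -/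
noncomputable def pw {n : ℕ} (X : Matrix (Fin n) (Fin n) ℂ) (q : ℝ) : Matrix (Fin n) (Fin n) ℂ :=
  cfc (fun x : ℝ => x ^ q) X

/-- The absolute value `|X| = (X* X)^(1/2)`. -/
noncomputable def mabs {n : ℕ} (X : Matrix (Fin n) (Fin n) ℂ) : Matrix (Fin n) (Fin n) ℂ :=
  pw (Xᴴ * X) (1 / 2)

theorem pw_eq {n : ℕ} {X : Matrix (Fin n) (Fin n) ℂ} (hX : X.PosSemidef) (q : ℝ) :
    pw X q = X ^ q :=
  (CFC.rpow_eq_cfc_real (a := X) (y := q) (Matrix.nonneg_iff_posSemidef.mpr hX)).symm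

theorem mabs_pow {n : ℕ} {A B : Matrix (Fin n) (Fin n) ℂ} (hA : A.PosSemidef) (hB : B.PosSemidef)
    {p : ℝ} (hp : 0 ≤ p) : pw (mabs (A * B)) p = (B * (A * A) * B) ^ (p / 2) := by
  have h0 : ((A * B)ᴴ * (A * B)).PosSemidef := Matrix.posSemidef_conjTranspose_mul_self _
  have h1 : mabs (A * B) = ((A * B)ᴴ * (A * B)) ^ (1 / 2 : ℝ) := pw_eq h0 _
  have h2 : (mabs (A * B)).PosSemidef := by
    rw [h1, ← Matrix.nonneg_iff_posSemidef]
    exact CFC.rpow_nonneg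
  rw [pw_eq h2, h1, CFC.rpow_rpow_of_exponent_nonneg _ _ _ (by norm_num) hp
    (Matrix.nonneg_iff_posSemidef.mpr h0)]
  have e1 : (A * B)ᴴ * (A * B) = B * (A * A) * B := by
    rw [conjTranspose_mul, hA.isHermitian.eq, hB.isHermitian.eq]
    simp only [Matrix.mul_assoc]
  have e2 : 1 / 2 * p = p / 2 := by ring
  rw [e1, e2]

/-- the inequality for positive definite matrices -/
theorem posDef_case {n : ℕ} {A B : Matrix (Fin n) (Fin n) ℂ} (hA : A.PosDef) (hB : B.PosDef)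
    {p : ℝ} (hp0 : 0 < p) (hp2 : p ≤ 2) :
    (A * A + A ^ p * B ^ p).det ≤ (A * A + (B * (A * A) * B) ^ (p / 2)).det := by
  have hAs : IsStrictlyPositive A := hA.isStrictlyPositive
  have e : A * A = A ^ (2 : ℝ) := by
    have := Pool.Agent.X872.DetIneq.radd hAs 1 1
    rw [CFC.rpow_one A hAs.nonneg] at this
    rw [this]
    norm_num
  have hAA : (A * A).PosDef := by
    rw [e]
    exact (Pool.Agent.X872.DetIneq.rsp hAs 2).posDef
  have h := Pool.Agent.X872.DetIneq.det_posDef hAA hB (r := p / 2) (by linarith) (by linarith)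
  have e1 : (A * A) ^ (p / 2) = A ^ p := by
    rw [e, Pool.Agent.X872.DetIneq.rr hAs]
    congr 1
    ring
  have e2 : 2 * (p / 2) = p := by ring
  rwa [e1, e2] at h

theorem posDef_add {n : ℕ} {A : Matrix (Fin n) (Fin n) ℂ} (hA : A.PosSemidef) {ε : ℝ} (hε : 0 < ε) :
    (A + ε • (1 : Matrix (Fin n) (Fin n) ℂ)).PosDef := by
  exact Matrix.PosDef.posSemidef_add hA (Matrix.PosDef.one.smul hε)

/-- the inequality for `0 < p` -/
theorem psd_case {n : ℕ} {A B : Matrix (Fin n) (Fin n) ℂ} (hA : A.PosSemidef) (hB : B.PosSemidef)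
    {p : ℝ} (hp0 : 0 < p) (hp2 : p ≤ 2) :
    (A * A + A ^ p * B ^ p).det ≤ (A * A + (B * (A * A) * B) ^ (p / 2)).det := by
  obtain ⟨a, ha⟩ : ∃ a : ℝ → Matrix (Fin n) (Fin n) ℂ,
      a = fun ε => A + ε • (1 : Matrix (Fin n) (Fin n) ℂ) := ⟨_, rfl⟩
  obtain ⟨b, hb⟩ : ∃ b : ℝ → Matrix (Fin n) (Fin n) ℂ,
      b = fun ε => B + ε • (1 : Matrix (Fin n) (Fin n) ℂ) := ⟨_, rfl⟩
  have ha0 : a 0 = A := by rw [ha]; simp
  have hb0 : b 0 = B := by rw [hb]; simp
  have hac : Continuous a := by rw [ha]; fun_prop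
  have hbc : Continuous b := by rw [hb]; fun_prop
  have hpos : ∀ {t : ℝ}, 0 < t → ∀ {f : ℝ → Matrix (Fin n) (Fin n) ℂ}, Continuous f →
      (∀ ε, 0 ≤ ε → 0 ≤ f ε) → Tendsto (fun ε => (f ε) ^ t) (𝓝[≥] (0 : ℝ)) (𝓝 ((f 0) ^ t)) := by
    intro t ht f hf hf0
    have h := Pool.Agent.Helper296.Bourin.kp_cont (n := n) t ht
    have h1 : ContinuousWithinAt (fun a : Matrix (Fin n) (Fin n) ℂ => a ^ t) {a | 0 ≤ a} (f 0) :=
      h (f 0) (hf0 0 le_rfl)
    refine h1.tendsto.comp ?_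
    refine tendsto_nhdsWithin_iff.2 ⟨(hf.tendsto 0).mono_left nhdsWithin_le_nhds, ?_⟩
    filter_upwards [self_mem_nhdsWithin] with ε hε
    exact hf0 ε hε
  have hann : ∀ ε : ℝ, 0 ≤ ε → 0 ≤ a ε := by
    intro ε hε
    rw [ha]
    exact add_nonneg (Matrix.nonneg_iff_posSemidef.mpr hA)
      (smul_nonneg hε (Matrix.nonneg_iff_posSemidef.mpr Matrix.PosSemidef.one))
  have hbnn : ∀ ε : ℝ, 0 ≤ ε → 0 ≤ b ε := by
    intro ε hε
    rw [hb]
    exact add_nonneg (Matrix.nonneg_iff_posSemidef.mpr hB)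
      (smul_nonneg hε (Matrix.nonneg_iff_posSemidef.mpr Matrix.PosSemidef.one))
  have hcc : Continuous (fun ε => b ε * (a ε * a ε) * b ε) := (hbc.mul (hac.mul hac)).mul hbc
  have hcnn : ∀ ε : ℝ, 0 ≤ ε → 0 ≤ b ε * (a ε * a ε) * b ε := by
    intro ε hε
    have h1 : (a ε)ᴴ = a ε := (Matrix.nonneg_iff_posSemidef.mp (hann ε hε)).isHermitian.eq
    have h2 : (b ε)ᴴ = b ε := (Matrix.nonneg_iff_posSemidef.mp (hbnn ε hε)).isHermitian.eq
    have h3 := Matrix.posSemidef_conjTranspose_mul_self (a ε * b ε)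
    rw [conjTranspose_mul, h1, h2] at h3
    rw [Matrix.nonneg_iff_posSemidef]
    have e : b ε * (a ε * a ε) * b ε = b ε * a ε * (a ε * b ε) := by simp only [Matrix.mul_assoc]
    rwa [e]
  have haa : Tendsto (fun ε => a ε * a ε) (𝓝[≥] (0 : ℝ)) (𝓝 (a 0 * a 0)) :=
    ((hac.mul hac).tendsto 0).mono_left nhdsWithin_le_nhds
  have hdet : Continuous (fun M : Matrix (Fin n) (Fin n) ℂ => M.det) := by
    exact Continuous.matrix_det continuous_id
  have t1 : Tendsto (fun ε => (a ε * a ε + (a ε) ^ p * (b ε) ^ p).det) (𝓝[≥] (0 : ℝ))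
      (𝓝 (a 0 * a 0 + (a 0) ^ p * (b 0) ^ p).det) :=
    (hdet.tendsto _).comp (haa.add ((hpos hp0 hac hann).mul (hpos hp0 hbc hbnn)))
  have t2 : Tendsto (fun ε => (a ε * a ε + (b ε * (a ε * a ε) * b ε) ^ (p / 2)).det) (𝓝[≥] (0 : ℝ))
      (𝓝 (a 0 * a 0 + (b 0 * (a 0 * a 0) * b 0) ^ (p / 2)).det) :=
    (hdet.tendsto _).comp (haa.add (hpos (by linarith : 0 < p / 2) hcc hcnn))
  rw [ha0, hb0] at t1 t2
  have hle : 𝓝[>] (0 : ℝ) ≤ 𝓝[≥] (0 : ℝ) := nhdsWithin_mono 0 Set.Ioi_subset_Ici_self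
  refine le_of_tendsto_of_tendsto (t1.mono_left hle) (t2.mono_left hle) ?_
  filter_upwards [self_mem_nhdsWithin] with ε hε
  rw [ha, hb]
  exact posDef_case (posDef_add hA hε) (posDef_add hB hε) hp0 hp2

/-- `det (A^2 + A^p B^p) ≤ det (A^2 + |AB|^p)` for positive semidefinite `A`, `B` and
`0 ≤ p ≤ 2`. (The order on `ℂ` is `z ≤ w` iff `w - z` is real and nonnegative.) -/
theorem result (n : ℕ) (A B : Matrix (Fin n) (Fin n) ℂ) (hA : A.PosSemidef) (hB : B.PosSemidef)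
    (p : ℝ) (hp0 : 0 ≤ p) (hp2 : p ≤ 2) :
    (A ^ 2 + pw A p * pw B p).det ≤ (A ^ 2 + pw (mabs (A * B)) p).det := by
  rw [mabs_pow hA hB hp0, pw_eq hA, pw_eq hB, pow_two]
  rcases hp0.eq_or_lt with h | h
  · subst h
    have h1 : 0 ≤ B * (A * A) * B := by
      have h3 := Matrix.posSemidef_conjTranspose_mul_self (A * B)
      rw [conjTranspose_mul, hA.isHermitian.eq, hB.isHermitian.eq] at h3
      rw [Matrix.nonneg_iff_posSemidef]
      have e : B * (A * A) * B = B * A * (A * B) := by simp only [Matrix.mul_assoc]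
      rwa [e]
    rw [zero_div, CFC.rpow_zero A (Matrix.nonneg_iff_posSemidef.mpr hA),
      CFC.rpow_zero B (Matrix.nonneg_iff_posSemidef.mpr hB), CFC.rpow_zero _ h1, Matrix.one_mul]
  · exact psd_case hA hB h hp2

end Pool.Agent.Results.MP_0f3ab5_an.DetInequality
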